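import Pool.Agent.H98.TR.Inv
import Pool.Agent.H17.P3.Defs

set_option autoImplicit false

/-!
The matrix of a rooted critical code (MP_a46c6f_co, target (C)): inverse of the reduced Laplacian,
extended by a zero row at the root; closed pairs have midpoints and closed paths have bad points.
-/

namespace Pool.Agent.H98.TR

open Pool.Agent.H98.Code Pool.Agent.H17.TR Pool.Agent.H17.P3

section
variable {V : Type} [Fintype V] [DecidableEq V]

theorem lam_inj {L : Submodule (ZMod 2) (V → K)} {H : V → V → ZMod 2} (hH : IsMat L H) {e : V}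
    (hc : CritAt L e) (f : {v // v ≠ e} → ZMod 2) (hf : (Lam H e).mulVec f = 0) : f = 0 := by
  by_contra hne
  obtain ⟨f₁, f₂, hs, h1⟩ := split_f hH hc f hne (by simp [hf]) (by simp [hf])
  have h2 : ∀ x, (Lam H e).mulVec f₁ x + (Lam H e).mulVec f₂ x = 0 := by
    intro x
    rw [← Pi.add_apply, ← Matrix.mulVec_add, hs, hf, Pi.zero_apply]
  have h3 : ∀ x, ((f₁ x = 0 ∧ (Lam H e).mulVec f₁ x = 0) ∨
      (f₂ x = 0 ∧ (Lam H e).mulVec f₂ x = 0)) → (Lam H e).mulVec f₁ x = 0 := by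
    intro x hx
    rcases hx with hx | hx
    · exact hx.2
    · have := h2 x
      rw [hx.2, add_zero] at this
      exact this
  rcases h1 with ⟨g, hg1, _, _, _, h4, h5⟩ | ⟨h4, h5⟩
  · have h6 : ∑ x, (Lam H e).mulVec f₁ x = (Lam H e).mulVec f₁ g :=
      Fintype.sum_eq_single g fun x hx => h3 x (h5 x hx)
    rw [h6, hg1] at h4
    exact absurd h4 (by decide)
  · have h6 : ∑ x, (Lam H e).mulVec f₁ x = 0 := Finset.sum_eq_zero fun x _ => h3 x (h5 x)
    rw [h6] at h4
    exact absurd h4 (by decide)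

/-- the inverse matrix, with a zero row and column at `e` -/
def MM {e : V} (N : Matrix {v // v ≠ e} {v // v ≠ e} (ZMod 2)) : V → V → ZMod 2 := fun u v =>
  if hu : u ≠ e then (if hv : v ≠ e then N ⟨u, hu⟩ ⟨v, hv⟩ else 0) else 0

theorem MM_val {e : V} (N : Matrix {v // v ≠ e} {v // v ≠ e} (ZMod 2)) (x y : {v // v ≠ e}) :
    MM N x.1 y.1 = N x y := by
  simp [MM, x.2, y.2]

theorem MM_left {e : V} (N : Matrix {v // v ≠ e} {v // v ≠ e} (ZMod 2)) (v : V) :
    MM N e v = 0 := by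
  simp [MM]

theorem MM_right {e : V} (N : Matrix {v // v ≠ e} {v // v ≠ e} (ZMod 2)) (v : V) :
    MM N v e = 0 := by
  simp [MM]

/-- the splitting in terms of the inverse matrix -/
theorem split_t {L : Submodule (ZMod 2) (V → K)} {H : V → V → ZMod 2} (hH : IsMat L H) {e : V}
    (hc : CritAt L e) {N : Matrix {v // v ≠ e} {v // v ≠ e} (ZMod 2)} (hN : Lam H e * N = 1)
    (hNs : ∀ x y, N x y = N y x) (s : {v // v ≠ e} → ZMod 2) (h0 : ∑ x, s x = 0) (hne : s ≠ 0)
    (hz : ∀ x, s x = 1 → N.mulVec s x = 1) :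
    ∃ (g : V) (t₁ t₂ : {v // v ≠ e} → ZMod 2), t₁ + t₂ = s ∧ ∑ x, t₁ x = 1 ∧
      ∀ x : {v // v ≠ e}, (MM N g x.1 + N.mulVec t₁ x = 0 ∧ t₁ x = 0) ∨
        (MM N g x.1 + N.mulVec t₂ x = 0 ∧ t₂ x = 0) := by
  have hN' : N * Lam H e = 1 := mul_eq_one_comm.1 hN
  have e1 : ∀ t, (Lam H e).mulVec (N.mulVec t) = t := by
    intro t
    rw [Matrix.mulVec_mulVec, hN, Matrix.one_mulVec]
  have e2 : ∀ t, N.mulVec ((Lam H e).mulVec t) = t := by
    intro t
    rw [Matrix.mulVec_mulVec, hN', Matrix.one_mulVec]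
  have z1 : ∀ a : ZMod 2, a ≠ 1 → a = 0 := by decide
  obtain ⟨f₁, f₂, hs, h1⟩ := split_f hH hc (N.mulVec s) (by
      intro hh
      apply hne
      rw [← e1 s, hh, Matrix.mulVec_zero]) (by rw [e1]; exact h0) (by
      intro x hx
      rw [e1]
      apply z1
      intro h2
      rw [hz x h2] at hx
      exact absurd hx (by decide))
  have hs' : (Lam H e).mulVec f₁ + (Lam H e).mulVec f₂ = s := by
    rw [← Matrix.mulVec_add, hs, e1]
  rcases h1 with ⟨g, hg1, hg2, hf1, hf2, h4, h5⟩ | ⟨h4, h5⟩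
  · have e3 : ∀ (f : {v // v ≠ e} → ZMod 2) (x : {v // v ≠ e}),
        MM N g.1 x.1 + N.mulVec ((Lam H e).mulVec f + Pi.single g 1) x = f x := by
      intro f x
      rw [Matrix.mulVec_add, Pi.add_apply, e2, MM_val, Matrix.mulVec_single_one, Matrix.col_apply,
        hNs x g]
      have h4 : ∀ a b : ZMod 2, a + (b + a) = b := by decide
      exact h4 _ _
    have e4 : (Pi.single g 1 + Pi.single g 1 : {v // v ≠ e} → ZMod 2) = 0 := by
      funext x
      exact CharTwo.add_self_eq_zero _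
    refine ⟨g.1, (Lam H e).mulVec f₁ + Pi.single g 1, (Lam H e).mulVec f₂ + Pi.single g 1, ?_, ?_,
      ?_⟩
    · rw [add_add_add_comm, hs', e4, add_zero]
    · simp only [Pi.add_apply, Finset.sum_add_distrib, h4, zero_add]
      simp
    · intro x
      rw [e3, e3]
      by_cases hx : x = g
      · left
        subst hx
        refine ⟨hf1, ?_⟩
        rw [Pi.add_apply, hg1, Pi.single_eq_same]
        decide
      · rcases h5 x hx with h6 | h6
        · left
          refine ⟨h6.1, ?_⟩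
          rw [Pi.add_apply, h6.2, Pi.single_eq_of_ne hx, add_zero]
        · right
          refine ⟨h6.1, ?_⟩
          rw [Pi.add_apply, h6.2, Pi.single_eq_of_ne hx, add_zero]
  · refine ⟨e, (Lam H e).mulVec f₁, (Lam H e).mulVec f₂, hs', h4, ?_⟩
    intro x
    rw [MM_left, zero_add, zero_add, e2, e2]
    exact h5 x

/-- the value of `N t` when `t` is supported on a finset -/
theorem mulVec_supp {e : V} (N : Matrix {v // v ≠ e} {v // v ≠ e} (ZMod 2))
    (hNs : ∀ x y, N x y = N y x) (S : Finset {v // v ≠ e}) (t : {v // v ≠ e} → ZMod 2)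
    (ht : ∀ x, x ∉ S → t x = 0) (x : {v // v ≠ e}) :
    N.mulVec t x = ∑ y ∈ S, t y * MM N y.1 x.1 := by
  unfold Matrix.mulVec dotProduct
  rw [← Finset.sum_subset (Finset.subset_univ S) (fun y _ hy => by rw [ht y hy, mul_zero])]
  refine Finset.sum_congr rfl fun y _ => ?_
  change N x y * t y = t y * MM N y.1 x.1
  rw [MM_val, hNs x y, mul_comm]

end

section
variable {V : Type} [Fintype V] [DecidableEq V]

theorem d3 : ∀ a b c p q : ZMod 2, p + q = 1 →
    (a + (p * b + q * c) = 0 ∨ a + ((1 + p) * b + (1 + q) * c) = 0) → a = b ∨ a = c := by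
  decide

theorem d4 : ∀ a b c p q : ZMod 2, p + q = 1 →
    ((a + (p * b + q * c) = 0 ∧ p = 0) ∨ (a + ((1 + p) * b + (1 + q) * c) = 0 ∧ 1 + p = 0)) →
    a = c := by
  decide

theorem d5 : ∀ a b c p q : ZMod 2, p + q = 1 →
    ((a + (p * b + q * c) = 0 ∧ q = 0) ∨ (a + ((1 + p) * b + (1 + q) * c) = 0 ∧ 1 + q = 0)) →
    a = b := by
  decide

theorem d6 : ∀ a b : ZMod 2, a + b = 1 → b = 1 + a := by
  decide

theorem pairs_MM {L : Submodule (ZMod 2) (V → K)} {H : V → V → ZMod 2} (hH : IsMat L H) {e : V}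
    (hc : CritAt L e) {N : Matrix {v // v ≠ e} {v // v ≠ e} (ZMod 2)} (hN : Lam H e * N = 1)
    (hNs : ∀ x y, N x y = N y x) : Pairs (MM N) := by
  intro u v huv hne
  have hz : ∀ a : ZMod 2, a = 0 ∨ a = 1 := by decide
  -- neither is `e`
  have hue : u ≠ e := by
    rintro rfl
    rw [MM_left, MM_left] at hne
    exact hne rfl
  have hve : v ≠ e := by
    rintro rfl
    rw [huv, MM_right, MM_right] at hne
    exact hne rfl
  have hsymM : ∀ x y, MM N x y = MM N y x := by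
    intro x y
    by_cases hx : x = e
    · rw [hx, MM_left, MM_right]
    · by_cases hy : y = e
      · rw [hy, MM_left, MM_right]
      · rw [MM_val N ⟨x, hx⟩ ⟨y, hy⟩, MM_val N ⟨y, hy⟩ ⟨x, hx⟩, hNs]
  have huv' : u ≠ v := by
    rintro rfl
    exact hne rfl
  obtain ⟨U, hU⟩ : ∃ U : {v // v ≠ e}, U.1 = u := ⟨⟨u, hue⟩, rfl⟩
  obtain ⟨W', hW⟩ : ∃ W' : {v // v ≠ e}, W'.1 = v := ⟨⟨v, hve⟩, rfl⟩
  have hUW : U ≠ W' := fun hh => huv' (by rw [← hU, ← hW, hh])
  let s : {v // v ≠ e} → ZMod 2 := fun x => if x = U ∨ x = W' then 1 else 0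
  have hsupp : ∀ (t : {v // v ≠ e} → ZMod 2), (∀ x, x ≠ U → x ≠ W' → t x = 0) →
      ∀ x, N.mulVec t x = t U * MM N u x.1 + t W' * MM N v x.1 := by
    intro t ht x
    rw [mulVec_supp N hNs {U, W'} t (fun y hy => ht y (by
      rintro rfl; simp at hy) (by rintro rfl; simp at hy)), Finset.sum_pair hUW, hU, hW]
  have hsum : ∀ (t : {v // v ≠ e} → ZMod 2), (∀ x, x ≠ U → x ≠ W' → t x = 0) →
      ∑ x, t x = t U + t W' := by
    intro t ht
    rw [← Finset.sum_subset (Finset.subset_univ {U, W'}) (fun y _ hy => ht y (by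
      rintro rfl; simp at hy) (by rintro rfl; simp at hy)), Finset.sum_pair hUW]
  have hs0 : ∀ x, x ≠ U → x ≠ W' → s x = 0 := by
    intro x h1 h2
    simp [s, h1, h2]
  have hsU : s U = 1 := by simp [s]
  have hsW : s W' = 1 := by simp [s]
  obtain ⟨g, t₁, t₂, hs, h1, h2⟩ := split_t hH hc hN hNs s (by
      rw [hsum s hs0, hsU, hsW]; decide) (by
      intro hh
      have := congrFun hh U
      rw [hsU, Pi.zero_apply] at this
      exact absurd this (by decide)) (by
      intro x hx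
      rw [hsupp s hs0, hsU, hsW, one_mul, one_mul]
      by_cases hxU : x = U
      · rw [hxU, hU, hsymM v u]
        generalize MM N u u = a at hne
        generalize MM N u v = b at hne
        revert a b
        decide
      · by_cases hxW : x = W'
        · rw [hxW, hW, ← huv]
          generalize MM N u u = a at hne
          generalize MM N u v = b at hne
          revert a b
          decide
        · rw [hs0 x hxU hxW] at hx
          exact absurd hx (by decide))
  have ht : ∀ x, t₁ x + t₂ x = s x := fun x => congrFun hs x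
  have ht1 : ∀ x, x ≠ U → x ≠ W' → t₁ x = 0 := by
    intro x hxU hxW
    have h3 := ht x
    rw [hs0 x hxU hxW] at h3
    rcases h2 x with h4 | h4
    · exact h4.2
    · rw [h4.2, add_zero] at h3
      exact h3
  have ht2 : ∀ x, x ≠ U → x ≠ W' → t₂ x = 0 := by
    intro x hxU hxW
    have h3 := ht x
    rw [hs0 x hxU hxW, ht1 x hxU hxW, zero_add] at h3
    exact h3
  rw [hsum t₁ ht1] at h1
  have hA := ht U
  have hB := ht W'
  rw [hsU] at hA
  rw [hsW] at hB
  have hA' : t₂ U = 1 + t₁ U := d6 _ _ hA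
  have hB' : t₂ W' = 1 + t₁ W' := d6 _ _ hB
  have h3 : ∀ x : {v // v ≠ e}, MM N g x.1 = MM N u x.1 ∨ MM N g x.1 = MM N v x.1 := by
    intro x
    have h4 := (h2 x).imp And.left And.left
    rw [hsupp t₁ ht1, hsupp t₂ ht2, hA', hB'] at h4
    exact d3 _ _ _ _ _ h1 h4
  have h4 : MM N g u = MM N v u := by
    have h5 := h2 U
    rw [hsupp t₁ ht1, hsupp t₂ ht2, hA', hB', hU] at h5
    exact d4 _ _ _ _ _ h1 h5
  have h5 : MM N g v = MM N u v := by
    have h5 := h2 W'
    rw [hsupp t₁ ht1, hsupp t₂ ht2, hA', hB', hW] at h5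
    exact d5 _ _ _ _ _ h1 h5
  have h6 : MM N g g = MM N u v := by
    by_cases hg : g = e
    · rw [hg, MM_left]
      rw [hg, MM_left] at h5
      exact h5
    · rcases h3 ⟨g, hg⟩ with h7 | h7
      · simp only at h7
        rw [h7, hsymM u g, h4, hsymM]
      · simp only at h7
        rw [h7, hsymM v g, h5]
  refine ⟨g, ?_, ?_, ?_, ?_⟩
  · rw [h6]
    exact hne
  · rw [h6, h4, hsymM]
  · rw [h6, h5]
  · intro x hx
    by_cases hxe : x = e
    · rw [hxe, MM_right, MM_right]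
    · rcases h3 ⟨x, hxe⟩ with h7 | h7
      · exact h7
      · simp only at h7
        rw [h7, hx]

theorem d7 : ∀ ga gb gc gd p q r w : ZMod 2, p + (q + (r + w)) = 1 →
    ((ga + q = 0 ∧ p = 0) ∨ (ga + (1 + q) = 0 ∧ 1 + p = 0)) →
    ((gb + (p + (q + r)) = 0 ∧ q = 0) ∨ (gb + ((1 + p) + ((1 + q) + (1 + r))) = 0 ∧ 1 + q = 0)) →
    ((gc + (q + (r + w)) = 0 ∧ r = 0) ∨ (gc + ((1 + q) + ((1 + r) + (1 + w))) = 0 ∧ 1 + r = 0)) →
    ((gd + r = 0 ∧ w = 0) ∨ (gd + (1 + r) = 0 ∧ 1 + w = 0)) → ga ≠ gd ∧ gb ≠ gc := by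
  decide

theorem d8 : ∀ g al p q r w : ZMod 2, p + (q + (r + w)) = 1 →
    (g + (p * al + (q * al + (r * al + w * al))) = 0 ∨
      g + ((1 + p) * al + ((1 + q) * al + ((1 + r) * al + (1 + w) * al))) = 0) → g = al := by
  decide

theorem p4_MM {L : Submodule (ZMod 2) (V → K)} {H : V → V → ZMod 2} (hH : IsMat L H) {e : V}
    (hc : CritAt L e) {N : Matrix {v // v ≠ e} {v // v ≠ e} (ZMod 2)} (hN : Lam H e * N = 1)
    (hNs : ∀ x y, N x y = N y x) : P4Split (MM N) := by
  intro a b c d h4 ha hb hc' hd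
  have hsymM : ∀ x y, MM N x y = MM N y x := by
    intro x y
    by_cases hx : x = e
    · rw [hx, MM_left, MM_right]
    · by_cases hy : y = e
      · rw [hy, MM_left, MM_right]
      · rw [MM_val N ⟨x, hx⟩ ⟨y, hy⟩, MM_val N ⟨y, hy⟩ ⟨x, hx⟩, hNs]
  have hab := h4.ab
  have hbc := h4.bc
  have hcd := h4.cd
  have hac := h4.ac
  have had := h4.ad
  have hbd := h4.bd
  have hba := (hsymM b a).trans hab
  have hcb := (hsymM c b).trans hbc
  have hdc := (hsymM d c).trans hcd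
  have hca := (hsymM c a).trans hac
  have hda := (hsymM d a).trans had
  have hdb := (hsymM d b).trans hbd
  have one_ne : (1 : ZMod 2) ≠ 0 := by decide
  have hae : a ≠ e := by
    rintro rfl
    rw [MM_left] at hab
    exact one_ne hab.symm
  have hbe : b ≠ e := by
    rintro rfl
    rw [MM_left] at hbc
    exact one_ne hbc.symm
  have hce : c ≠ e := by
    rintro rfl
    rw [MM_left] at hcd
    exact one_ne hcd.symm
  have hde : d ≠ e := by
    rintro rfl
    rw [MM_left] at hdc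
    exact one_ne hdc.symm
  have nab : a ≠ b := by
    rintro rfl
    exact one_ne (hb.symm.trans ha)
  have nac : a ≠ c := by
    rintro rfl
    exact one_ne (hc'.symm.trans ha)
  have nad : a ≠ d := by
    rintro rfl
    exact one_ne (hab.symm.trans hdb)
  have nbc : b ≠ c := by
    rintro rfl
    exact one_ne (hba.symm.trans hca)
  have nbd : b ≠ d := by
    rintro rfl
    exact one_ne (hb.symm.trans hd)
  have ncd : c ≠ d := by
    rintro rfl
    exact one_ne (hc'.symm.trans hd)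
  obtain ⟨A, rfl⟩ : ∃ A : {v // v ≠ e}, A.1 = a := ⟨⟨a, hae⟩, rfl⟩
  obtain ⟨B, rfl⟩ : ∃ A : {v // v ≠ e}, A.1 = b := ⟨⟨b, hbe⟩, rfl⟩
  obtain ⟨C, rfl⟩ : ∃ A : {v // v ≠ e}, A.1 = c := ⟨⟨c, hce⟩, rfl⟩
  obtain ⟨D, rfl⟩ : ∃ A : {v // v ≠ e}, A.1 = d := ⟨⟨d, hde⟩, rfl⟩
  have mab : A ≠ B := fun hh => nab (by rw [hh])
  have mac : A ≠ C := fun hh => nac (by rw [hh])
  have mad : A ≠ D := fun hh => nad (by rw [hh])
  have mbc : B ≠ C := fun hh => nbc (by rw [hh])
  have mbd : B ≠ D := fun hh => nbd (by rw [hh])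
  have mcd : C ≠ D := fun hh => ncd (by rw [hh])
  have n1 : A ∉ ({B, C, D} : Finset {v // v ≠ e}) := by simp [mab, mac, mad]
  have n2 : B ∉ ({C, D} : Finset {v // v ≠ e}) := by simp [mbc, mbd]
  let s : {v // v ≠ e} → ZMod 2 := fun x =>
    if x ∈ ({A, B, C, D} : Finset {v // v ≠ e}) then 1 else 0
  have hsupp : ∀ (t : {v // v ≠ e} → ZMod 2),
      (∀ x, x ∉ ({A, B, C, D} : Finset {v // v ≠ e}) → t x = 0) →
      ∀ x, N.mulVec t x = t A * MM N A.1 x.1 + (t B * MM N B.1 x.1 + (t C * MM N C.1 x.1 +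
        t D * MM N D.1 x.1)) := by
    intro t ht x
    rw [mulVec_supp N hNs {A, B, C, D} t ht, Finset.sum_insert n1, Finset.sum_insert n2,
      Finset.sum_pair mcd]
  have hsum : ∀ (t : {v // v ≠ e} → ZMod 2),
      (∀ x, x ∉ ({A, B, C, D} : Finset {v // v ≠ e}) → t x = 0) →
      ∑ x, t x = t A + (t B + (t C + t D)) := by
    intro t ht
    rw [← Finset.sum_subset (Finset.subset_univ {A, B, C, D}) (fun y _ hy => ht y hy),
      Finset.sum_insert n1, Finset.sum_insert n2, Finset.sum_pair mcd]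
  have hs0 : ∀ x, x ∉ ({A, B, C, D} : Finset {v // v ≠ e}) → s x = 0 := by
    intro x hx
    exact if_neg hx
  have hsA : s A = 1 := by simp [s]
  have hsB : s B = 1 := by simp [s]
  have hsC : s C = 1 := by simp [s]
  have hsD : s D = 1 := by simp [s]
  obtain ⟨g, t₁, t₂, hs, h1, h2⟩ := split_t hH hc hN hNs s (by
      rw [hsum s hs0, hsA, hsB, hsC, hsD]; decide) (by
      intro hh
      have := congrFun hh A
      rw [hsA, Pi.zero_apply] at this
      exact absurd this (by decide)) (by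
      intro x hx
      rw [hsupp s hs0, hsA, hsB, hsC, hsD]
      by_cases hxS : x ∈ ({A, B, C, D} : Finset {v // v ≠ e})
      · simp only [Finset.mem_insert, Finset.mem_singleton] at hxS
        rcases hxS with rfl | rfl | rfl | rfl
        · rw [ha, hba, hca, hda]; decide
        · rw [hab, hb, hcb, hdb]; decide
        · rw [hac, hbc, hc', hdc]; decide
        · rw [had, hbd, hcd, hd]; decide
      · rw [hs0 x hxS] at hx
        exact absurd hx (by decide))
  have ht : ∀ x, t₁ x + t₂ x = s x := fun x => congrFun hs x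
  have ht1 : ∀ x, x ∉ ({A, B, C, D} : Finset {v // v ≠ e}) → t₁ x = 0 := by
    intro x hx
    have h3 := ht x
    rw [hs0 x hx] at h3
    rcases h2 x with h4 | h4
    · exact h4.2
    · rw [h4.2, add_zero] at h3
      exact h3
  have ht2 : ∀ x, x ∉ ({A, B, C, D} : Finset {v // v ≠ e}) → t₂ x = 0 := by
    intro x hx
    have h3 := ht x
    rw [hs0 x hx, ht1 x hx, zero_add] at h3
    exact h3
  rw [hsum t₁ ht1] at h1
  have eA : t₂ A = 1 + t₁ A := d6 _ _ ((ht A).trans hsA)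
  have eB : t₂ B = 1 + t₁ B := d6 _ _ ((ht B).trans hsB)
  have eC : t₂ C = 1 + t₁ C := d6 _ _ ((ht C).trans hsC)
  have eD : t₂ D = 1 + t₁ D := d6 _ _ ((ht D).trans hsD)
  have kA := h2 A
  have kB := h2 B
  have kC := h2 C
  have kD := h2 D
  rw [hsupp t₁ ht1, hsupp t₂ ht2, eA, eB, eC, eD, ha, hba, hca, hda] at kA
  rw [hsupp t₁ ht1, hsupp t₂ ht2, eA, eB, eC, eD, hab, hb, hcb, hdb] at kB
  rw [hsupp t₁ ht1, hsupp t₂ ht2, eA, eB, eC, eD, hac, hbc, hc', hdc] at kC
  rw [hsupp t₁ ht1, hsupp t₂ ht2, eA, eB, eC, eD, had, hbd, hcd, hd] at kD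
  simp only [mul_zero, mul_one, zero_add, add_zero] at kA kB kC kD
  refine ⟨g, d7 _ _ _ _ _ _ _ _ h1 kA kB kC kD, ?_⟩
  intro y y1 y2 y3
  by_cases hye : y = e
  · rw [hye, MM_right, MM_right]
  · have k := (h2 ⟨y, hye⟩).imp And.left And.left
    rw [hsupp t₁ ht1, hsupp t₂ ht2, eA, eB, eC, eD] at k
    simp only at k
    rw [← y1, ← y2, ← y3] at k
    exact d8 _ _ _ _ _ _ h1 k

/-- **the matrix of a rooted critical code** -/
theorem exists_M {L : Submodule (ZMod 2) (V → K)} {H : V → V → ZMod 2} (hH : IsMat L H) {e : V}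
    (hc : CritAt L e) : ∃ M : V → V → ZMod 2, (∀ x y, M x y = M y x) ∧ (∀ x, M e x = 0) ∧
      (∀ u, u ≠ e → ∀ v, ∑ w, H u w * (M u v + M w v) = if u = v then 1 else 0) ∧
      Pairs M ∧ P4Split M := by
  have hinj : Function.Injective (Lam H e).mulVec := by
    intro f f' hff
    have h1 : (Lam H e).mulVec (f - f') = 0 := by
      rw [Matrix.mulVec_sub, hff, sub_self]
    exact sub_eq_zero.1 (lam_inj hH hc _ h1)
  have hu : IsUnit (Lam H e) := Matrix.mulVec_injective_iff_isUnit.1 hinj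
  have hdet : IsUnit (Lam H e).det := (Matrix.isUnit_iff_isUnit_det _).1 hu
  have hN : Lam H e * (Lam H e)⁻¹ = 1 := Matrix.mul_nonsing_inv _ hdet
  have hT : (Lam H e).transpose = Lam H e := by
    ext x y
    unfold Lam
    rw [Matrix.transpose_apply, hH.sym]
    by_cases hxy : x = y
    · rw [hxy]
    · rw [if_neg hxy, if_neg (Ne.symm hxy)]
  have hNs : ∀ x y, (Lam H e)⁻¹ x y = (Lam H e)⁻¹ y x := by
    intro x y
    have h1 := Matrix.transpose_nonsing_inv (Lam H e)
    rw [hT] at h1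
    have h2 : (Lam H e)⁻¹.transpose y x = (Lam H e)⁻¹ y x := by rw [h1]
    exact h2
  refine ⟨MM (Lam H e)⁻¹, ?_, MM_left _, ?_, pairs_MM hH hc hN hNs, p4_MM hH hc hN hNs⟩
  · intro x y
    by_cases hx : x = e
    · rw [hx, MM_left, MM_right]
    · by_cases hy : y = e
      · rw [hy, MM_left, MM_right]
      · rw [MM_val _ ⟨x, hx⟩ ⟨y, hy⟩, MM_val _ ⟨y, hy⟩ ⟨x, hx⟩, hNs]
  · intro u hu v
    by_cases hv : v = e
    · rw [hv, if_neg hu]
      apply Finset.sum_eq_zero
      intro w _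
      rw [MM_right, MM_right, add_zero, mul_zero]
    · have h1 : ∑ w, H u w * (MM (Lam H e)⁻¹ u v + MM (Lam H e)⁻¹ w v) =
          (Lam H e).mulVec (fun x => (Lam H e)⁻¹ x ⟨v, hv⟩) ⟨u, hu⟩ := by
        rw [act_eq]
        have h2 : ∀ w, MM (Lam H e)⁻¹ w v =
            ext0 e (fun x => (Lam H e)⁻¹ x ⟨v, hv⟩) w := by
          intro w
          by_cases hw : w = e
          · rw [hw, ext0_e, MM_left]
          · rw [ext0_val e _ ⟨w, hw⟩, MM_val _ ⟨w, hw⟩ ⟨v, hv⟩]
        simp only [mul_add, Finset.sum_add_distrib, h2]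
        rw [ext0_val e _ ⟨u, hu⟩, Finset.sum_mul, add_comm]
      rw [h1]
      have h3 : (Lam H e).mulVec (fun x => (Lam H e)⁻¹ x ⟨v, hv⟩) ⟨u, hu⟩ =
          (Lam H e * (Lam H e)⁻¹) ⟨u, hu⟩ ⟨v, hv⟩ := rfl
      rw [h3, hN, Matrix.one_apply]
      by_cases huv : u = v
      · subst huv
        rw [if_pos rfl, if_pos rfl]
      · rw [if_neg huv, if_neg (fun hh => huv (congrArg Subtype.val hh))]

end

end Pool.Agent.H98.TR
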