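import Pool.Agent.H17.TR.KThree

set_option autoImplicit false

/-!
The inverse of the reduced Laplacian of a rooted critical code (MP_a46c6f_co, target (C)): closed pairs
have midpoints and no induced path on four vertices is good.
-/

namespace Pool.Agent.H98.TR

open Pool.Agent.H98.Code Pool.Agent.H17.TR

section
variable {V : Type} [Fintype V] [DecidableEq V]

/-- extension by `0` at `e` -/
def ext0 (e : V) (f : {v // v ≠ e} → ZMod 2) : V → ZMod 2 := fun v =>
  if h : v ≠ e then f ⟨v, h⟩ else 0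

theorem ext0_e (e : V) (f : {v // v ≠ e} → ZMod 2) : ext0 e f e = 0 := by
  simp [ext0]

theorem ext0_val (e : V) (f : {v // v ≠ e} → ZMod 2) (x : {v // v ≠ e}) :
    ext0 e f x.1 = f x := by
  simp [ext0, x.2]

theorem sum_ext0 (e : V) (g : V → ZMod 2) (f : {v // v ≠ e} → ZMod 2) :
    ∑ v, g v * ext0 e f v = ∑ x : {v // v ≠ e}, g x.1 * f x := by
  rw [Fintype.sum_eq_add_sum_subtype_ne (fun v => g v * ext0 e f v) e, ext0_e, mul_zero, zero_add]
  exact Finset.sum_congr rfl fun x _ => by rw [ext0_val]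

/-- the reduced Laplacian -/
def Lam (H : V → V → ZMod 2) (e : V) : Matrix {v // v ≠ e} {v // v ≠ e} (ZMod 2) := fun x y =>
  H x.1 y.1 + if x = y then ∑ w, H x.1 w else 0

/-- the word with first coordinate `f` -/
def W (H : V → V → ZMod 2) (e : V) (f : {v // v ≠ e} → ZMod 2) : V → K := fun v =>
  (ext0 e f v, ∑ w, H v w * ext0 e f w)

theorem act_eq (H : V → V → ZMod 2) (e : V) (f : {v // v ≠ e} → ZMod 2) (x : {v // v ≠ e}) :
    (Lam H e).mulVec f x = ∑ w, H x.1 w * ext0 e f w + (∑ w, H x.1 w) * f x := by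
  rw [sum_ext0]
  unfold Lam Matrix.mulVec dotProduct
  simp only [add_mul, Finset.sum_add_distrib, ite_mul, zero_mul, Finset.sum_ite_eq,
    Finset.mem_univ, if_true]

theorem W_val (H : V → V → ZMod 2) (e : V) (f : {v // v ≠ e} → ZMod 2) (x : {v // v ≠ e}) :
    W H e f x.1 = (f x, (Lam H e).mulVec f x + (∑ w, H x.1 w) * f x) := by
  unfold W
  rw [ext0_val, act_eq, add_assoc, CharTwo.add_self_eq_zero, add_zero]

theorem W_e {H : V → V → ZMod 2} (hs : ∀ u v, H u v = H v u) (e : V)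
    (f : {v // v ≠ e} → ZMod 2) : W H e f e = (0, ∑ x, (Lam H e).mulVec f x) := by
  unfold W
  rw [ext0_e]
  congr 1
  have h1 : ∑ x, (Lam H e).mulVec f x = ∑ x : {v // v ≠ e}, ∑ w, H x.1 w * ext0 e f w +
      ∑ x : {v // v ≠ e}, (∑ w, H x.1 w) * f x := by
    rw [← Finset.sum_add_distrib]
    exact Finset.sum_congr rfl fun x _ => act_eq H e f x
  have h2 := Fintype.sum_eq_add_sum_subtype_ne (fun v => ∑ w, H v w * ext0 e f w) e
  have h3 : ∑ v, ∑ w, H v w * ext0 e f w = ∑ x : {v // v ≠ e}, (∑ w, H x.1 w) * f x := by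
    rw [Finset.sum_comm, ← sum_ext0 e (fun v => ∑ w, H v w) f]
    refine Finset.sum_congr rfl fun w _ => ?_
    rw [Finset.sum_mul]
    exact Finset.sum_congr rfl fun v _ => by rw [hs]
  rw [h1, ← h3, h2]
  have h4 : ∀ a b : ZMod 2, a = b + (a + b) := by decide
  exact h4 _ _

theorem W_mem {L : Submodule (ZMod 2) (V → K)} {H : V → V → ZMod 2} (hH : IsMat L H) (e : V)
    (f : {v // v ≠ e} → ZMod 2) : W H e f ∈ L := by
  rw [hH.mem]
  intro v
  rfl

theorem eq_W {L : Submodule (ZMod 2) (V → K)} {H : V → V → ZMod 2} (hH : IsMat L H) {e : V}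
    {u : V → K} (hu : u ∈ L) (h0 : (u e).1 = 0) : u = W H e (fun x => (u x.1).1) := by
  have h1 := (hH.mem u).1 hu
  have h2 : ∀ v, (u v).1 = ext0 e (fun x : {v // v ≠ e} => (u x.1).1) v := by
    intro v
    by_cases hv : v = e
    · rw [hv, ext0_e, h0]
    · rw [ext0_val e _ ⟨v, hv⟩]
  funext v
  refine Prod.ext (h2 v) ?_
  rw [h1 v]
  exact Finset.sum_congr rfl fun w _ => by rw [h2 w]

/-- a closed set splits -/
theorem split_f {L : Submodule (ZMod 2) (V → K)} {H : V → V → ZMod 2} (hH : IsMat L H) {e : V}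
    (hc : CritAt L e) (f : {v // v ≠ e} → ZMod 2) (hf : f ≠ 0)
    (h0 : ∑ x, (Lam H e).mulVec f x = 0) (hz : ∀ x, f x = 0 → (Lam H e).mulVec f x = 0) :
    ∃ f₁ f₂ : {v // v ≠ e} → ZMod 2, f₁ + f₂ = f ∧
      ((∃ g, (Lam H e).mulVec f₁ g = 1 ∧ (Lam H e).mulVec f₂ g = 1 ∧ f₁ g = 0 ∧ f₂ g = 0 ∧
        ∑ x, (Lam H e).mulVec f₁ x = 0 ∧ ∀ x, x ≠ g → (f₁ x = 0 ∧ (Lam H e).mulVec f₁ x = 0) ∨
          (f₂ x = 0 ∧ (Lam H e).mulVec f₂ x = 0)) ∨
      (∑ x, (Lam H e).mulVec f₁ x = 1 ∧ ∀ x, (f₁ x = 0 ∧ (Lam H e).mulVec f₁ x = 0) ∨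
          (f₂ x = 0 ∧ (Lam H e).mulVec f₂ x = 0))) := by
  have hWe : W H e f e = 0 := by
    rw [W_e hH.sym, h0]
    rfl
  have h1 : W H e f ≠ 0 := by
    intro hh
    apply hf
    funext x
    have := congrFun hh x.1
    rw [W_val] at this
    exact congrArg Prod.fst this
  have h2 : ZFree (W H e f) := by
    intro v
    by_cases hv : v = e
    · rw [hv, hWe]
      decide
    · rw [W_val H e f ⟨v, hv⟩]
      intro hh
      have a1 := congrArg Prod.fst hh
      have a2 := congrArg Prod.snd hh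
      simp only [z] at a1 a2
      rw [hz _ a1, a1] at a2
      simp at a2
  obtain ⟨g, c₁, hc₁, c₂, hc₂, hs, hg1, hg2, hd⟩ := hc _ (W_mem hH e f) h1 h2 hWe
  -- both are 0 or z at e
  have he1 : (c₁ e).1 = 0 := by
    by_cases hge : e = g
    · rw [hge, hg1]
      rfl
    · have hse : c₁ e + c₂ e = 0 := by
        rw [← hWe, ← hs, Pi.add_apply]
      rcases hd e hge with h3 | h3
      · rw [h3]
        rfl
      · rw [h3, add_zero] at hse
        rw [hse]
        rfl
  have he2 : (c₂ e).1 = 0 := by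
    have hse : c₁ e + c₂ e = 0 := by
      rw [← hWe, ← hs, Pi.add_apply]
    have := congrArg Prod.fst hse
    simp only [Prod.fst_add, Prod.fst_zero] at this
    rw [he1, zero_add] at this
    exact this
  have e1 := eq_W hH hc₁ he1
  have e2 := eq_W hH hc₂ he2
  generalize (fun x : {v // v ≠ e} => (c₁ x.1).1) = f₁ at e1
  generalize (fun x : {v // v ≠ e} => (c₂ x.1).1) = f₂ at e2
  subst e1 e2
  have key : ∀ (f' : {v // v ≠ e} → ZMod 2) (x : {v // v ≠ e}), W H e f' x.1 = 0 →
      f' x = 0 ∧ (Lam H e).mulVec f' x = 0 := by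
    intro f' x hx
    rw [W_val] at hx
    have a1 : f' x = 0 := congrArg Prod.fst hx
    have a2 := congrArg Prod.snd hx
    simp only at a2
    rw [a1, mul_zero, add_zero] at a2
    exact ⟨a1, a2⟩
  have keyz : ∀ (f' : {v // v ≠ e} → ZMod 2) (x : {v // v ≠ e}), W H e f' x.1 = z →
      f' x = 0 ∧ (Lam H e).mulVec f' x = 1 := by
    intro f' x hx
    rw [W_val] at hx
    have a1 : f' x = 0 := congrArg Prod.fst hx
    have a2 := congrArg Prod.snd hx
    simp only [z] at a2
    rw [a1, mul_zero, add_zero] at a2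
    exact ⟨a1, a2⟩
  refine ⟨f₁, f₂, ?_, ?_⟩
  · funext x
    have := congrFun hs x.1
    rw [Pi.add_apply, W_val, W_val, W_val] at this
    exact congrArg Prod.fst this
  · by_cases hge : g = e
    · right
      subst hge
      constructor
      · rw [W_e hH.sym] at hg1
        exact congrArg Prod.snd hg1
      · intro x
        rcases hd x.1 x.2 with h3 | h3
        · exact Or.inl (key _ _ h3)
        · exact Or.inr (key _ _ h3)
    · left
      have b1 := keyz _ ⟨g, hge⟩ hg1
      have b2 := keyz _ ⟨g, hge⟩ hg2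
      refine ⟨⟨g, hge⟩, b1.2, b2.2, b1.1, b2.1, ?_, ?_⟩
      · have hse : W H e f₁ e + W H e f₂ e = 0 := by
          rw [← hWe, ← hs, Pi.add_apply]
        have h4 : W H e f₁ e = 0 := by
          rcases hd e (Ne.symm hge) with h3 | h3
          · exact h3
          · rw [h3, add_zero] at hse
            exact hse
        rw [W_e hH.sym] at h4
        exact congrArg Prod.snd h4
      · intro x hx
        rcases hd x.1 (fun hh => hx (Subtype.ext hh)) with h3 | h3
        · exact Or.inl (key _ _ h3)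
        · exact Or.inr (key _ _ h3)

end

end Pool.Agent.H98.TR
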