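import Mathlib
import Pool.Agent.H98.Code.Minor
import Pool.Agent.H26.TR.Full
import Pool.Agent.H26.TR.Pair

set_option autoImplicit false

/-!
Rows of the pair codes of two parts; a code with all degrees even has no pointed word
(MP_a46c6f_co, note 6894 (8), (9)).
-/

namespace Pool.Agent.H98.TR

open Finset Pool.Agent.H98.Code Pool.Agent.H26.TR

section
variable {V : Type} [Fintype V] [DecidableEq V]

/-- `y` is a lift of the row of `m` in the pair code of the part `M` -/
def IsRow (L : Submodule (ZMod 2) (V → K)) (r : V) (D : V → K) (M : Finset V) (m : V)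
    (y : V → K) : Prop :=
  y ∈ L ∧ (y m).1 = 1 ∧ (∀ v ∈ M, v ≠ m → (y v).1 = 0) ∧
    (∀ v, v ∉ M → v ≠ r → y v = 0 ∨ y v = D v) ∧ (y r).1 = 0

/-- `y` is zero on `M` or nonzero everywhere on `M` -/
def Triv (M : Finset V) (y : V → K) : Prop := (∀ v ∈ M, y v = 0) ∨ ∀ v ∈ M, y v ≠ 0

/-- a word orthogonal to all rows is orthogonal to the code -/
theorem orth_of_rows {L : Submodule (ZMod 2) (V → K)} (hL : IsCode L) (hz : NoZ L) (a : V → K)
    (h : ∀ v, ∀ r ∈ L, (r v).1 = 1 → (∀ w, w ≠ v → (r w).1 = 0) → form a r = 0) :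
    ∀ b ∈ L, form a b = 0 := by
  intro b hb
  choose r hr hr1 hr0 using fun v => exists_row hL hz v
  have h1 : b = ∑ w, (b w).1 • r w := by
    apply eq_of_fst hz hb (Submodule.sum_mem _ fun w _ => L.smul_mem _ (hr w))
    intro v
    rw [Finset.sum_apply, Prod.fst_sum, Finset.sum_eq_single v]
    · rw [Pi.smul_apply, Prod.smul_fst, hr1, smul_eq_mul, mul_one]
    · intro i _ hi
      rw [Pi.smul_apply, Prod.smul_fst, hr0 i v (Ne.symm hi), smul_zero]
    · intro h
      exact absurd (Finset.mem_univ v) h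
  have h2 : ∀ (s : Finset V), form a (∑ w ∈ s, (b w).1 • r w) = 0 := by
    intro s
    induction s using Finset.induction_on with
    | empty => simp [form, kf_zero_right]
    | insert i s hi ih =>
      rw [Finset.sum_insert hi, form_add_right, ih, add_zero, form_smul_right,
        h i (r i) (hr i) (hr1 i) (hr0 i), mul_zero]
  rw [h1]
  exact h2 _

theorem exists_isRow {L : Submodule (ZMod 2) (V → K)} {r : V} {D : V → K}
    {P : Finset (Finset V)} (h : Hyp L r D) (hP : IsParts L r D P) (hL : IsCode L) (hz : NoZ L)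
    {M : Finset V} (hM : M ∈ P) {m : V} (hm : m ∈ M) : ∃ y, IsRow L r D M m y := by
  obtain ⟨h1, h2, _, _, _⟩ := hP.pairCode_spec h hL hz hM
  obtain ⟨a, ha, ha1, ha0⟩ := exists_row h1 h2 ⟨m, hm⟩
  rw [h.mem_pairCode (hP.mem M hM).2.1] at ha
  obtain ⟨u, hu, h3, h4, rfl⟩ := ha
  refine ⟨u, hu, ha1, ?_, h3, ?_⟩
  · intro v hv hvm
    exact ha0 ⟨v, hv⟩ (fun h0 => hvm (congrArg Subtype.val h0))
  · rcases h4 with h4 | h4 <;> rw [h4] <;> rfl

/-- (8) -/
theorem sym {L : Submodule (ZMod 2) (V → K)} {r : V} {D : V → K} {P : Finset (Finset V)}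
    (h : Hyp L r D) (hP : IsParts L r D P) (hL : IsCode L) (hz : NoZ L) {M M' : Finset V}
    (hM : M ∈ P) (hM' : M' ∈ P) (hne : M ≠ M') {m : V} (hm : m ∈ M) {y : V → K}
    (hy : IsRow L r D M m y) (hnt : ¬ Triv M' y) :
    ∃ m' ∈ M', ∃ y', IsRow L r D M' m' y' ∧ ¬ Triv M y' := by
  by_contra hcon
  push Not at hcon
  have heM : r ∉ M := (hP.mem M hM).2.1
  have heM' : r ∉ M' := (hP.mem M' hM').2.1
  obtain ⟨c1, c2, _, _, c5⟩ := hP.pairCode_spec h hL hz hM'
  have hdis : ∀ v, v ∈ M → v ∉ M' := fun v hv => Finset.disjoint_left.1 (hP.disj M hM M' hM' hne) hv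
  set a : {v // v ∈ M'} → K := fun x => y x.1 with ha
  -- the restriction to `M'` is orthogonal to all rows
  have horth : ∀ b ∈ pairCode L D r M', form a b = 0 := by
    apply orth_of_rows c1 c2
    intro v b hb hb1 hb0
    rw [h.mem_pairCode heM'] at hb
    obtain ⟨y', hy', h3, h4, rfl⟩ := hb
    have hrow : IsRow L r D M' v.1 y' := by
      refine ⟨hy', hb1, ?_, h3, ?_⟩
      · intro w hw hwv
        exact hb0 ⟨w, hw⟩ (fun h0 => hwv (congrArg Subtype.val h0))
      · rcases h4 with h4 | h4 <;> rw [h4] <;> rfl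
    have htr := hcon v.1 v.2 y' hrow
    have e1 := hL.iso _ hy.1 _ hy'
    -- split the form
    have e2 : form y y' = (∑ v ∈ M, kf (y v) (y' v)) + ∑ v ∈ M', kf (y v) (y' v) := by
      have e3 : ∑ v ∈ M ∪ M', kf (y v) (y' v) = form y y' := by
        simp only [form]
        apply Finset.sum_subset (Finset.subset_univ _)
        intro w _ hw
        rw [Finset.mem_union, not_or] at hw
        by_cases hwr : w = r
        · subst hwr
          have h5 := hy.2.2.2.2
          have h6 := hrow.2.2.2.2
          simp [kf, h5, h6]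
        · rcases hy.2.2.2.1 w hw.1 hwr with h5 | h5
          · rw [h5, kf_zero_left]
          · rcases h3 w hw.2 hwr with h6 | h6
            · rw [h6, kf_zero_right]
            · rw [h5, h6, kf_self]
      rw [← e3, Finset.sum_union (hP.disj M hM M' hM' hne)]
    have e4 : ∑ v ∈ M, kf (y v) (y' v) = 0 := by
      rcases htr with htr | htr
      · exact Finset.sum_eq_zero fun w hw => by rw [htr w hw, kf_zero_right]
      · have e5 := hL.iso _ hy.1 _ (hP.mem M hM).2.2
        have e6 : form y (pw D r M) = ∑ v ∈ M, kf (y v) (D v) := by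
          simp only [form]
          rw [← Finset.sum_subset (Finset.subset_univ M)]
          · refine Finset.sum_congr rfl fun w hw => ?_
            have hwr : w ≠ r := fun h0 => heM (h0 ▸ hw)
            simp only [pw]
            rw [if_neg hwr, if_pos hw]
          · intro w _ hw
            simp only [pw]
            by_cases hwr : w = r
            · rw [if_pos hwr, hwr, kf_z_right]
              exact hy.2.2.2.2
            · rw [if_neg hwr, if_neg hw, kf_zero_right]
        rw [← e6.symm.trans e5]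
        refine Finset.sum_congr rfl fun w hw => ?_
        have hwr : w ≠ r := fun h0 => heM (h0 ▸ hw)
        rcases h3 w (hdis w hw) hwr with h7 | h7
        · exact absurd h7 (htr w hw)
        · rw [h7]
    rw [e2, e4, zero_add] at e1
    have e8 : form a (fun x => y' x.1) = ∑ v ∈ M', kf (y v) (y' v) := by
      simp only [form]
      exact Finset.sum_coe_sort M' (fun v => kf (y v) (y' v))
    rw [e8]
    exact e1
  have hmem : a ∈ pairCode L D r M' := c1.max a horth
  have hbel : ∀ x, a x = 0 ∨ a x = D x.1 := by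
    intro x
    have hxM : x.1 ∉ M := fun h0 => hdis _ h0 x.2
    have hxr : x.1 ≠ r := fun h0 => heM' (h0 ▸ x.2)
    exact hy.2.2.2.1 x.1 hxM hxr
  apply hnt
  rcases c5 a hmem hbel with h9 | h9
  · left
    intro v hv
    exact congrFun h9 ⟨v, hv⟩
  · right
    intro v hv h0
    have h10 : y v = D v := congrFun h9 ⟨v, hv⟩
    have hvr : v ≠ r := fun h0 => heM' (h0 ▸ hv)
    exact h.D_ne hvr (h10 ▸ h0)

theorem sum_sym_zero (F : V → V → ZMod 2) (hs : ∀ v w, F v w = F w v) (hd : ∀ v, F v v = 0)
    (s : Finset V) : ∑ v ∈ s, ∑ w ∈ s, F v w = 0 := by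
  induction s using Finset.induction_on with
  | empty => simp
  | insert i s hi ih =>
    rw [Finset.sum_insert hi, Finset.sum_insert hi, hd, zero_add]
    have e1 : ∀ v ∈ s, ∑ w ∈ insert i s, F v w = F i v + ∑ w ∈ s, F v w := by
      intro v _
      rw [Finset.sum_insert hi, hs v i]
    rw [Finset.sum_congr rfl e1, Finset.sum_add_distrib, ih, add_zero]
    exact CharTwo.add_self_eq_zero _

/-- (9): if all degrees are even there is no pointed word -/
theorem no_pointed {L : Submodule (ZMod 2) (V → K)} (hL : IsCode L) (hz : NoZ L)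
    (hd : ∀ r, ∃ d ∈ L, d r = 0 ∧ ∀ v, v ≠ r → (d v).1 = 1) :
    ∀ c ∈ L, ∀ g, Pointed c g → False := by
  intro c hc g hg
  obtain ⟨H, hH, hLH⟩ := exists_matrix hL hz
  have hdeg : ∀ r, ∑ w, (if w = r then 0 else H r w) = 0 := by
    intro r
    obtain ⟨d, hdL, hd0, hd1⟩ := hd r
    have h1 := (hLH d).1 hdL r
    rw [hd0] at h1
    have h2 : ∑ w, (if w = r then 0 else H r w) = ∑ w, H r w * (d w).1 := by
      refine Finset.sum_congr rfl fun w _ => ?_
      by_cases hw : w = r
      · rw [if_pos hw, hw, hd0]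
        simp
      · rw [if_neg hw, hd1 w hw, mul_one]
    rw [h2, ← h1]
    rfl
  set b : V → ZMod 2 := fun v => (c v).1 with hb
  set F : V → V → ZMod 2 := fun v w => if w = v then 0 else H v w with hF
  have hFs : ∀ v w, F v w = F w v := by
    intro v w
    simp only [hF]
    by_cases h : w = v
    · rw [if_pos h, if_pos h.symm]
    · rw [if_neg h, if_neg (Ne.symm h), hH]
  have e1 : ∑ v, ∑ w, F v w * b w = 0 := by
    rw [Finset.sum_comm]
    refine Finset.sum_eq_zero fun w _ => ?_
    rw [← Finset.sum_mul]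
    have h1 : ∑ v, F v w = ∑ v, F w v := Finset.sum_congr rfl fun v _ => hFs v w
    rw [h1]
    have h2 : ∑ v, F w v = 0 := hdeg w
    rw [h2, zero_mul]
  have e2 : ∑ v, b v * ∑ w, F v w * b w = 0 := by
    have h1 := sum_sym_zero (fun v w => b v * (F v w * b w)) (fun v w => by
      change b v * (F v w * b w) = b w * (F w v * b v)
      rw [hFs v w]
      ring) (fun v => by simp [hF]) Finset.univ
    rw [← h1]
    refine Finset.sum_congr rfl fun v _ => ?_
    rw [Finset.mul_sum]
  have e3 : ∀ v, b v = 0 → ∑ w, F v w * b w = (c v).2 := by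
    intro v hv
    rw [(hLH c).1 hc v]
    refine Finset.sum_congr rfl fun w _ => ?_
    simp only [hF]
    by_cases h : w = v
    · rw [if_pos h, h]
      change 0 * b v = H v v * b v
      rw [hv, mul_zero, mul_zero]
    · rw [if_neg h]
  have e4 : ∑ v, (1 + b v) * ∑ w, F v w * b w = 1 := by
    rw [Finset.sum_eq_single g]
    · have h1 : b g = 0 := by
        simp only [hb]
        rw [hg.1]
        rfl
      rw [e3 g h1, h1, hg.1]
      simp [z]
    · intro v _ hv
      rcases k_cases (c v) with h1 | h1 | h1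
      · have h2 : b v = 0 := by simp only [hb]; rw [h1]; rfl
        rw [e3 v h2, h1]
        simp
      · exact absurd h1 (hg.2 v hv)
      · have h2 : b v = 1 := h1
        rw [h2]
        have h3 : (1 : ZMod 2) + 1 = 0 := by decide
        rw [h3, zero_mul]
    · intro h
      exact absurd (Finset.mem_univ g) h
  have e5 : ∑ v, (1 + b v) * ∑ w, F v w * b w =
      ∑ v, (∑ w, F v w * b w) + ∑ v, b v * ∑ w, F v w * b w := by
    rw [← Finset.sum_add_distrib]
    refine Finset.sum_congr rfl fun v _ => ?_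
    ring
  rw [e4, e1, e2, add_zero] at e5
  exact one_ne_zero e5

end

end Pool.Agent.H98.TR
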